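import Pool.Agent.E8helper76.UB.Size
import Pool.Agent.E8helper76.UB.Isog
import Pool.Agent.E8helper76.UB.Good

/-!
# MP_160b6c_nt: torsion and isogenies of all abelian varieties which are geometrically isogenous to
products of elliptic curves, for almost all invariants of all heights, with bounds which depend on the
dimension and on the relative degree only

Let `K` be a number field. The invariants `j ≠ 0, 1728` in `K`, of ALL heights, are ordered by the
product `radical j` of the norms of the primes (not dividing six) at which `j` reduces to `0`, `1728`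
or `∞`; there are `X ^ (2 / 3 + o(1))` of them with `radical j ≤ X`. All but a proportion `X ^ (-ν)` are
`Good`: there is a prime `q` such that, for EVERY elliptic curve over `K` of invariant `j` and every `n`
which is a power of a prime or is prime to `q`, the image of the Galois group of `K` in the
automorphism group of `E[n]` contains all automorphisms of determinant `1`.

Let `M` be ANY extension of `K` of finite degree `D`, and let `A` be ANY abelian variety over `M`, of
dimension `d`, which over the algebraic closure is isogenous to a product `E₁ ^ g₁ × ... × E_r ^ g_r` of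
elliptic curves `E_i` over `K` with good invariants (twists, Weil restrictions, all forms of all
quotients; there is no assumption on the field of definition or on the degree of the isogeny). Then

* every torsion point of `A` over `M` has order at most `(D (2 d)!) ^ (2 d (d + 1))`, and the torsion
  subgroup of `A(M)` has at most `(D (2 d)!) ^ (4 d ^ 2 (d + 1))` elements;
* if `r = 1` then `A` is isomorphic over the algebraic closure to a quotient `E ^ d / Γ'` where `Γ'` is
  killed by a number `T ≤ (D (2 d)!) ^ 4`: there are only boundedly many `A` up to geometric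
  isomorphism. (For all `r` this holds for the largest abelian subvariety of `A` which is geometrically
  isogenous to a power of `E_i`.)

The bounds are polynomials in the degree `D` of `M` over `K`, whose exponents and coefficients depend
on `d` only, not on `K`, on the curves, on `A` or on the isogeny.

How `A` is described. Choose an isogeny from the product to `A` over the algebraic closure, with kernel
`Γ`, so that the group `A(K̄)` is the quotient of the group `Product` of points of the product by the
finite subgroup `Γ`. The Galois group of `M` acts on it; this is `act`. The isogeny is defined over a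
finite extension `L`, over which `act` is the natural action (`IsForm.level`). The conjugate of the
isogeny by `σ` differs from it by an element of `End ⊗ ℚ`; this is a block matrix with rational entries
(`IsForm.isogeny`), as the curves have no complex multiplication and, with distinct invariants, are not
isogenous over the algebraic closure (the kernel of an isogeny of minimal degree between them would be
stable under the Galois group of `K`). Only these properties are used.

Proof. (1) For almost all `j` there is a simple pole `v` of `j`, which gives all levels prime to the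
residue characteristic `q ≥ 5` of `v`, and all primes; one passes from the level `q` to the levels
`q ^ k` with the help of a commutator whose trace is corrected to be `2`. (2) A rational matrix of finite
order of size `d` has an order dividing `(2 d)!`, so that for every `σ` some power `σ ^ t`,
`t ≤ D (2 d)!`, acts on `A(K̄)` in the natural way. (3) If `σ ^ s` and `τ ^ t` act on `E_i[m]` by the
elementary matrices `1 + s e₁₂` and `1 + t e₂₁` then the element
`(σ ^ s - 1) (τ ^ t - 1) + (τ ^ t - 1) (σ ^ s - 1)` of the group ring acts as `s t` on `E_i[m]` and kills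
the points over `M`; one removes one block after the other. (4) In the same way `s t` times any conjugate
of an element of `Γ` is in `Γ`; the subgroup generated by these is stable under the Galois group of `K`
and so it is the kernel of an integral matrix.
-/

set_option autoImplicit false

open NumberField IsDedekindDomain
open scoped Classical

namespace Pool.Agent.Results.MP_160b6c_nt.GeometricProductsH76

/-- The curve `y² = x³ + Ax + B` over `K`. -/
def curve {K : Type} [Field K] (A B : K) : WeierstrassCurve K := ⟨0, 0, 0, A, B⟩

/-- The group of its points over the algebraic closure of `K`. -/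
abbrev Points {K : Type} [Field K] (A B : K) : Type :=
  ((curve A B).baseChange (AlgebraicClosure K)).toAffine.Point

/-- The action of an automorphism `σ` of the algebraic closure over `K` on the points. -/
noncomputable def galois {K : Type} [Field K] (A B : K)
    (σ : AlgebraicClosure K ≃ₐ[K] AlgebraicClosure K) : Points A B →+ Points A B :=
  WeierstrassCurve.Affine.Point.map (σ : AlgebraicClosure K →ₐ[K] AlgebraicClosure K)

/-- The invariant of `y² = x³ + Ax + B`. -/
noncomputable def jInvariant {K : Type} [Field K] (A B : K) : K :=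
  6912 * A ^ 3 / (4 * A ^ 3 + 27 * B ^ 2)

/-- the product of the norms of the primes not dividing six at which `j` reduces to `0`, `1728` or
`∞` -/
noncomputable def radical {K : Type} [Field K] [NumberField K] (j : K) : ℝ :=
  ∏ᶠ v ∈ {v : HeightOneSpectrum (𝓞 K) | v.valuation K 6 = 1 ∧
    (v.valuation K j ≠ 1 ∨ v.valuation K (j - 1728) ≠ 1)}, (Ideal.absNorm v.asIdeal : ℝ)

/-- the invariants `j ≠ 0, 1728`, of whatever height, with `radical j ≤ X` -/
def Invariants (K : Type) [Field K] [NumberField K] (X : ℝ) : Set K :=
  {j | j ≠ 0 ∧ j ≠ 1728 ∧ radical j ≤ X}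

/-- the points killed by `n` have a basis such that every integral matrix of determinant `1` modulo
`n` describes the action of an element of the Galois group of `K` -/
def FullImage {K : Type} [Field K] (A B : K) (n : ℕ) : Prop :=
  ∃ P Q : Points A B, (n • P = 0 ∧ n • Q = 0 ∧
    (∀ R : Points A B, n • R = 0 → ∃ a b : ℤ, R = a • P + b • Q) ∧
    ∀ a b : ℤ, a • P + b • Q = 0 → (n : ℤ) ∣ a ∧ (n : ℤ) ∣ b) ∧
    ∀ a b c d : ℤ, (n : ℤ) ∣ a * d - b * c - 1 →
      ∃ σ : AlgebraicClosure K ≃ₐ[K] AlgebraicClosure K,
        galois A B σ P = a • P + c • Q ∧ galois A B σ Q = b • P + d • Q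

/-- the good invariants: for some prime `q`, all curves of invariant `j` and all `n` which are powers of
a prime or are prime to `q`, the image of the Galois group in the automorphism group of `E[n]` contains
all automorphisms of determinant `1` -/
def Good {K : Type} [Field K] (j : K) : Prop :=
  ∃ q : ℕ, q.Prime ∧ ∀ A B : K, 4 * A ^ 3 + 27 * B ^ 2 ≠ 0 → jInvariant A B = j →
    ∀ n : ℕ, 0 < n → ((∃ p k : ℕ, p.Prime ∧ n = p ^ k) ∨ Nat.Coprime n q) → FullImage A B n

/-- The points over the algebraic closure of `E₁ ^ g₁ × ... × E_r ^ g_r`, where `E_i` is the curve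
`y² = x³ + A_i x + B_i`. -/
abbrev Product {K : Type} [Field K] {r : ℕ} (A B : Fin r → K) (g : Fin r → ℕ) : Type :=
  ∀ i, Fin (g i) → Points (A i) (B i)

/-- the Galois group -/
abbrev Gal (K : Type) [Field K] : Type := AlgebraicClosure K ≃ₐ[K] AlgebraicClosure K

section forms

variable {K : Type} [Field K] {r : ℕ} {A B : Fin r → K} {g : Fin r → ℕ}

/-- the natural action of the Galois group on the points of the product -/
noncomputable def galoisProduct (σ : Gal K) (x : Product A B g) : Product A B g :=
  fun i a => galois (A i) (B i) σ (x i a)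

/-- the endomorphism of the product given by integral matrices -/
noncomputable def matrixMap (C : ∀ i, Matrix (Fin (g i)) (Fin (g i)) ℤ) (x : Product A B g) :
    Product A B g :=
  fun i a => ∑ b, C i a b • x i b

/-- the points of the quotient of the product by `Γ` -/
abbrev Quo (Γ : AddSubgroup (Product A B g)) : Type := Product A B g ⧸ Γ

/-- the class of a point -/
noncomputable abbrev cls (Γ : AddSubgroup (Product A B g)) (x : Product A B g) : Quo Γ := QuotientAddGroup.mk x

/-- `f` is the action of `σ` on the quotient which is induced by the natural one -/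
def IsNatural (Γ : AddSubgroup (Product A B g)) (σ : Gal K) (f : Quo Γ → Quo Γ) : Prop :=
  ∀ x : Product A B g, f (cls Γ x) = cls Γ (galoisProduct σ x)

/-- some positive multiple of `f` is the natural action of `σ` followed by an endomorphism -/
def IsQuasiNatural (Γ : AddSubgroup (Product A B g)) (σ : Gal K) (f : Quo Γ → Quo Γ) : Prop :=
  ∃ N : ℕ, 0 < N ∧ ∃ C : ∀ i, Matrix (Fin (g i)) (Fin (g i)) ℤ,
    ∀ x : Product A B g, N • f (cls Γ x) = cls Γ (matrixMap C (galoisProduct σ x))

/-- an action of the Galois group of `M` on the quotient -/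
abbrev Action (M : IntermediateField K (AlgebraicClosure K))
    (Γ : AddSubgroup (Product A B g)) : Type := M.fixingSubgroup →* AddMonoid.End (Quo Γ)

/-- The abelian varieties `A` over `M` which are isogenous to the product over the algebraic closure:
`A(K̄)` is the quotient of the points of the product by the finite kernel `Γ` of an isogeny, with an
action `act` of the Galois group of `M`, such that

* for every `σ` some positive multiple of `act σ` is the natural action of `σ` followed by an
  endomorphism of the product (the conjugate by `σ` of the isogeny is a quasi-isogeny);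
* over some finite extension `L` (over which the isogeny is defined) the action is the natural one. -/
structure IsForm {M : IntermediateField K (AlgebraicClosure K)} {Γ : AddSubgroup (Product A B g)}
    (act : Action M Γ) : Prop where
  finite : (Γ : Set (Product A B g)).Finite
  isogeny : ∀ σ : M.fixingSubgroup, IsQuasiNatural Γ σ (act σ)
  level : ∃ L : IntermediateField K (AlgebraicClosure K), FiniteDimensional K L ∧
    ∀ σ : M.fixingSubgroup, (σ : Gal K) ∈ L.fixingSubgroup → IsNatural Γ σ (act σ)

/-- the torsion points over `M` -/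
def torsion {M : IntermediateField K (AlgebraicClosure K)} {Γ : AddSubgroup (Product A B g)}
    (act : Action M Γ) : Set (Quo Γ) := {z | (∀ σ, act σ z = z) ∧ IsOfFinAddOrder z}

/-- every torsion point over `M` has order at most `(D (2 d)!) ^ (2 d (d + 1))`, and there are at most
`(D (2 d)!) ^ (4 d ^ 2 (d + 1))` torsion points over `M` -/
def BoundedTorsion {M : IntermediateField K (AlgebraicClosure K)}
    {Γ : AddSubgroup (Product A B g)} (act : Action M Γ) (d D : ℕ) : Prop :=
  (∀ z ∈ torsion act, addOrderOf z ≤ (D * (2 * d).factorial) ^ (2 * d * (d + 1))) ∧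
  (torsion act).Finite ∧
  (torsion act).ncard ≤ (D * (2 * d).factorial) ^ (4 * d ^ 2 * (d + 1))

/-- For every block `i` there are an integral matrix `N` of nonzero determinant and a positive integer
`T ≤ (D (2 d)!) ^ 4` such that the part `Γ_i` of `Γ` in the block `E_i ^ g_i` contains the kernel of
`N`, and the image of `Γ_i` by `N` is killed by `T`: so `N` identifies `E_i ^ g_i / Γ_i` with
`E_i ^ g_i / N Γ_i`. -/
def BoundedIsogeny (Γ : AddSubgroup (Product A B g)) (d D : ℕ) : Prop :=
  ∀ i : Fin r, ∃ T : ℕ, 0 < T ∧ T ≤ (D * (2 * d).factorial) ^ 4 ∧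
    ∃ N : Matrix (Fin (g i)) (Fin (g i)) ℤ, N.det ≠ 0 ∧
      ∀ x : Fin (g i) → Points (A i) (B i),
        ((∀ a, ∑ b, N a b • x b = 0) → (Pi.single i x : Product A B g) ∈ Γ) ∧
        ((Pi.single i x : Product A B g) ∈ Γ → ∀ a, T • ∑ b, N a b • x b = 0)

end forms

/-- there are `X ^ (2 / 3 + o(1))` invariants with `radical j ≤ X` -/
def SizeOfFamily (K : Type) [Field K] [NumberField K] : Prop :=
  ∀ δ : ℝ, 0 < δ → ∃ X₀ : ℝ, ∀ X : ℝ, X₀ ≤ X → (Invariants K X).Finite ∧
    X ^ (2 / 3 - δ) ≤ ((Invariants K X).ncard : ℝ) ∧
    ((Invariants K X).ncard : ℝ) ≤ X ^ (2 / 3 + δ)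

/-- all but a proportion `X ^ (-ν)` of the invariants with `radical j ≤ X` are good -/
def AlmostAllGood (K : Type) [Field K] [NumberField K] : Prop :=
  ∃ ν X₀ : ℝ, 0 < ν ∧ ∀ X : ℝ, X₀ ≤ X →
    (({j | j ∈ Invariants K X ∧ ¬ Good j} : Set K).ncard : ℝ) ≤ X ^ (-ν) * (Invariants K X).ncard

theorem inv_eq (K : Type) [Field K] [NumberField K] (X : ℝ) :
    Invariants K X = Pool.Agent.Q19.JL.Iv K X := by
  ext j
  constructor
  · rintro ⟨h0, h1, h2⟩
    refine ⟨h0, h1, ?_⟩
    rw [← Pool.Agent.Q19.JL.rad_eq h0 h1]
    exact h2
  · rintro ⟨h0, h1, h2⟩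
    refine ⟨h0, h1, ?_⟩
    rw [← Pool.Agent.Q19.JL.rad_eq h0 h1] at h2
    exact h2

theorem good_of {K : Type} [Field K] [NumberField K] {j : K}
    (h : Pool.Agent.E8helper76.UB.Lv j) : Good j := by
  obtain ⟨q, hq, h⟩ := h
  refine ⟨q, hq, fun A B hD hj n hn hc => ?_⟩
  exact Pool.Agent.Q19.SU.hasSLn_nat (h A B hD hj n hn hc)

open Pool.Agent.E8helper76.UB Pool.Agent.Q19.SU in
theorem bounded_of {K : Type} [Field K] [NumberField K] {r : ℕ} {A B : Fin r → K}
    (hD : ∀ i, 4 * A i ^ 3 + 27 * B i ^ 2 ≠ 0) (hG : ∀ i, Good (jInvariant (A i) (B i)))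
    {g : Fin r → ℕ} (hg : ∀ i, 1 ≤ g i) {M : IntermediateField K (AlgebraicClosure K)}
    [FiniteDimensional K M] {Γ : AddSubgroup (Product A B g)}
    {act : Action M Γ} (hF : IsForm act) {d : ℕ} (hd : d = ∑ i, g i) :
    BoundedTorsion act d (Module.finrank K M) ∧ BoundedIsogeny Γ d (Module.finrank K M) := by
  choose q hq hlev using hG
  have hgal : IsGalois K (AlgebraicClosure K) := inferInstance
  obtain ⟨ρ, hρ⟩ : ∃ ρ : ∀ i : Fin r, (AlgebraicClosure K ≃ₐ[K] AlgebraicClosure K) →
    Points (A i) (B i) →+ Points (A i) (B i), ρ = fun i σ => galois (A i) (B i) σ := ⟨_, rfl⟩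
  have hmul : ∀ i σ τ v, ρ i (σ * τ) v = ρ i σ (ρ i τ v) := by
    intro i σ τ v
    rw [hρ]
    exact act_mul (A i) (B i) σ τ v
  have hone : ∀ i v, ρ i 1 v = v := by
    intro i v
    rw [hρ]
    exact act_one (A i) (B i) v
  have hfull : ∀ i, ∀ n : ℕ, 0 < n → ((∃ p k : ℕ, p.Prime ∧ n = p ^ k) ∨ Nat.Coprime n (q i)) →
      ∃ P Q : Points (A i) (B i), Gen.Bas n P Q ∧ Gen.All (ρ i) n 1 P Q := by
    intro i n hn hc
    obtain ⟨P, Q, ⟨h1, h2, h3, h4⟩, h5⟩ := hlev i (A i) (B i) (hD i) rfl n hn hc
    refine ⟨P, Q, ⟨?_, ?_, ?_, h4⟩, ?_⟩
    · rw [natCast_zsmul]; exact h1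
    · rw [natCast_zsmul]; exact h2
    · intro R hR
      rw [natCast_zsmul] at hR
      exact h3 R hR
    · intro a b c d hdet
      obtain ⟨σ, s1, s2⟩ := h5 a b c d hdet
      rw [hρ]
      refine ⟨σ, s1, s2, fun R hR => ?_⟩
      have : R = 0 := by simpa using hR
      rw [this, map_zero]
  have hFull : Full ρ q := ⟨hmul, hone, hq, hfull⟩
  have hform : Form ρ g M.fixingSubgroup Γ act := by
    refine ⟨hF.finite, ?_, ?_⟩
    · intro σ
      obtain ⟨N, hN, C, hC⟩ := hF.isogeny σ
      refine ⟨N, hN, C, fun x => ?_⟩
      rw [hC x, hρ]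
      rfl
    · obtain ⟨L, hL, h⟩ := hF.level
      refine ⟨L.fixingSubgroup, ?_, fun σ hσ x => ?_⟩
      · rw [← IntermediateField.finrank_eq_fixingSubgroup_index]
        exact Module.finrank_pos.ne'
      · rw [h σ hσ x, hρ]
        rfl
  have hidx : M.fixingSubgroup.index = Module.finrank K M :=
    (IntermediateField.finrank_eq_fixingSubgroup_index (AlgebraicClosure K) M).symm
  have hidx0 : M.fixingSubgroup.index ≠ 0 := by
    rw [hidx]
    exact Module.finrank_pos.ne'
  obtain ⟨k1, k2, k3⟩ := hform.size hFull hg hidx0 hidx.le hd
  have hgd : ∀ i, g i ≤ d := fun i => by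
    rw [hd]; exact Finset.single_le_sum (fun _ _ => Nat.zero_le _) (Finset.mem_univ i)
  refine ⟨⟨fun z hz => k1 z hz.1 hz.2, k2, ?_⟩, fun i => ?_⟩
  · refine k3.trans (le_of_eq ?_)
    rw [← pow_mul]
    congr 1
    ring
  · have hpow := hform.pow hFull hgd hidx0 hidx.le
    obtain ⟨Δ, hΔ⟩ : ∃ Δ : AddSubgroup (Fin (g i) → Points (A i) (B i)),
        ∀ x, x ∈ Δ ↔ (Pi.single i x : Product A B g) ∈ Γ :=
      ⟨Γ.comap (AddMonoidHom.single (fun i => Fin (g i) → Points (A i) (B i)) i),
        fun x => Iff.rfl⟩
    have hΔfin : (Δ : Set (Fin (g i) → Points (A i) (B i))).Finite := by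
      refine Set.Finite.of_finite_image (f := fun x => (Pi.single i x : Product A B g))
        (hF.finite.subset ?_) ?_
      · rintro _ ⟨x, hx, rfl⟩
        exact (hΔ x).1 hx
      · intro x _ y _ hxy
        exact Pi.single_injective i hxy
    obtain ⟨T, hT0, hT, N, hN, h1, h2⟩ := iso_bound (g := g i) (hmul i) (hone i) (hq i) (hfull i)
      hΔfin (fun σ => by
        obtain ⟨t, ht0, ht, hst, -⟩ := hpow σ
        refine ⟨t, ht0, ht, fun y hy => ?_⟩
        have h3 := hst _ ((hΔ y).1 hy)
        rw [hΔ]
        have h4 : actP ρ g (σ ^ t) (Pi.single i y : Product A B g) =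
            (Pi.single i (actV (ρ i) (g i) (σ ^ t) y) : Product A B g) := by
          funext k
          by_cases hk : k = i
          · subst hk
            funext a
            rw [actP_apply, Pi.single_eq_same, Pi.single_eq_same]
            rfl
          · funext a
            rw [actP_apply, Pi.single_eq_of_ne hk, Pi.single_eq_of_ne hk]
            exact map_zero _
        rw [h4] at h3
        exact h3)
    refine ⟨T, hT0, hT, N, hN, fun x => ⟨fun hx => ?_, fun hx a => ?_⟩⟩
    · rw [← hΔ]
      exact h1 x (funext hx)
    · have h3 := congrFun (h2 x ((hΔ x).2 hx)) a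
      rw [← natCast_zsmul]
      exact h3

/-- **Theorem.** (1) There are `X ^ (2 / 3 + o(1))` invariants, of all heights, with
`radical j ≤ X`. (2) All but a power-saving proportion of them are good. (3) For all abelian varieties
`A`, over all extensions `M` of `K` of finite degree `D`, which are geometrically isogenous to a product
of elliptic curves with good invariants, the torsion of `A(M)` and the isogenies are bounded by explicit
polynomials in `D`, which depend on the dimension `d = ∑ g_i` only. -/
theorem result (K : Type) [Field K] [NumberField K] :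
    SizeOfFamily K ∧ AlmostAllGood K ∧
    ∀ (r : ℕ) (A B : Fin r → K) (g : Fin r → ℕ), (∀ i, 4 * A i ^ 3 + 27 * B i ^ 2 ≠ 0) →
      (∀ i, Good (jInvariant (A i) (B i))) → (∀ i, 1 ≤ g i) →
      ∀ M : IntermediateField K (AlgebraicClosure K), FiniteDimensional K M →
      ∀ (Γ : AddSubgroup (Product A B g)) (act : Action M Γ), IsForm act →
        BoundedTorsion act (∑ i, g i) (Module.finrank K M) ∧
        BoundedIsogeny Γ (∑ i, g i) (Module.finrank K M) := by
  refine ⟨fun δ hδ => ?_, ?_, ?_⟩
  · obtain ⟨X1, hX1, h1⟩ := Pool.Agent.Q19.JL.Iv_upper K δ hδ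
    obtain ⟨X2, hX2, h2⟩ := Pool.Agent.Q19.JL.Iv_lower K δ hδ
    refine ⟨max X1 X2, fun X hX => ?_⟩
    rw [inv_eq]
    exact ⟨Pool.Agent.Q19.JL.Iv_fin K (hX1.trans ((le_max_left _ _).trans hX)),
      h2 X ((le_max_right _ _).trans hX), h1 X ((le_max_left _ _).trans hX)⟩
  · obtain ⟨ν, X₀, hν, -, h⟩ := Pool.Agent.E8helper76.UB.lv_prop K (1 / 4) 0 (by norm_num) le_rfl
    refine ⟨ν, X₀, hν, fun X hX => ?_⟩
    rw [inv_eq]
    exact h X hX _ (fun j hj => hj.1) fun j hj hcon => hj.2 (good_of hcon.1)
  · intro r A B g hD hG hg M hM Γ act hF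
    exact bounded_of hD hG hg hF rfl

end Pool.Agent.Results.MP_160b6c_nt.GeometricProductsH76
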